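import Mathlib

set_option autoImplicit false

namespace Pool.Agent.H28.Psi

open SimpleGraph

variable {V : Type*}

/-- `G` has a (not necessarily proper) complete labelling with `k` labels. -/
def HasK (G : SimpleGraph V) (k : ℕ) : Prop :=
  ∃ f : V → Fin k, ∀ i j : Fin k, i ≠ j → ∃ u v, G.Adj u v ∧ f u = i ∧ f v = j

lemma hasK_of_list (G : SimpleGraph V) {k : ℕ} (hk : 0 < k) (L : List (V × Fin k))
    (hnd : (L.map Prod.fst).Nodup)
    (hE : ∀ i j : Fin k, i < j → ∃ u v, G.Adj u v ∧ (u, i) ∈ L ∧ (v, j) ∈ L) : HasK G k := by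
  classical
  have huniq : ∀ v i j, (v, i) ∈ L → (v, j) ∈ L → i = j := by
    intro v i j hi hj
    have := List.inj_on_of_nodup_map hnd hi hj rfl
    exact (Prod.mk.inj this).2
  let f : V → Fin k := fun v => if h : ∃ i, (v, i) ∈ L then h.choose else ⟨0, hk⟩
  have hf : ∀ v i, (v, i) ∈ L → f v = i := by
    intro v i hi
    have hex : ∃ i, (v, i) ∈ L := ⟨i, hi⟩
    simp only [f]
    rw [dif_pos hex]
    exact huniq v _ _ hex.choose_spec hi
  refine ⟨f, ?_⟩
  intro i j hij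
  rcases lt_or_gt_of_ne hij with h | h
  · obtain ⟨u, v, huv, hu, hv⟩ := hE i j h
    exact ⟨u, v, huv, hf u i hu, hf v j hv⟩
  · obtain ⟨u, v, huv, hu, hv⟩ := hE j i h
    exact ⟨v, u, huv.symm, hf v i hv, hf u j hu⟩

lemma hasK4_of_list (G : SimpleGraph V) (L : List (V × Fin 4))
    (hnd : (L.map Prod.fst).Nodup)
    (h01 : ∃ u v, G.Adj u v ∧ (u, (0 : Fin 4)) ∈ L ∧ (v, (1 : Fin 4)) ∈ L)
    (h02 : ∃ u v, G.Adj u v ∧ (u, (0 : Fin 4)) ∈ L ∧ (v, (2 : Fin 4)) ∈ L)
    (h03 : ∃ u v, G.Adj u v ∧ (u, (0 : Fin 4)) ∈ L ∧ (v, (3 : Fin 4)) ∈ L)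
    (h12 : ∃ u v, G.Adj u v ∧ (u, (1 : Fin 4)) ∈ L ∧ (v, (2 : Fin 4)) ∈ L)
    (h13 : ∃ u v, G.Adj u v ∧ (u, (1 : Fin 4)) ∈ L ∧ (v, (3 : Fin 4)) ∈ L)
    (h23 : ∃ u v, G.Adj u v ∧ (u, (2 : Fin 4)) ∈ L ∧ (v, (3 : Fin 4)) ∈ L) :
    HasK G 4 := by
  refine hasK_of_list G (by norm_num) L hnd ?_
  intro i j hij
  fin_cases i <;> fin_cases j <;> first | assumption | exact absurd hij (by decide)

lemma hasK5_of_list (G : SimpleGraph V) (L : List (V × Fin 5))
    (hnd : (L.map Prod.fst).Nodup)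
    (h01 : ∃ u v, G.Adj u v ∧ (u, (0 : Fin 5)) ∈ L ∧ (v, (1 : Fin 5)) ∈ L)
    (h02 : ∃ u v, G.Adj u v ∧ (u, (0 : Fin 5)) ∈ L ∧ (v, (2 : Fin 5)) ∈ L)
    (h03 : ∃ u v, G.Adj u v ∧ (u, (0 : Fin 5)) ∈ L ∧ (v, (3 : Fin 5)) ∈ L)
    (h04 : ∃ u v, G.Adj u v ∧ (u, (0 : Fin 5)) ∈ L ∧ (v, (4 : Fin 5)) ∈ L)
    (h12 : ∃ u v, G.Adj u v ∧ (u, (1 : Fin 5)) ∈ L ∧ (v, (2 : Fin 5)) ∈ L)
    (h13 : ∃ u v, G.Adj u v ∧ (u, (1 : Fin 5)) ∈ L ∧ (v, (3 : Fin 5)) ∈ L)
    (h14 : ∃ u v, G.Adj u v ∧ (u, (1 : Fin 5)) ∈ L ∧ (v, (4 : Fin 5)) ∈ L)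
    (h23 : ∃ u v, G.Adj u v ∧ (u, (2 : Fin 5)) ∈ L ∧ (v, (3 : Fin 5)) ∈ L)
    (h24 : ∃ u v, G.Adj u v ∧ (u, (2 : Fin 5)) ∈ L ∧ (v, (4 : Fin 5)) ∈ L)
    (h34 : ∃ u v, G.Adj u v ∧ (u, (3 : Fin 5)) ∈ L ∧ (v, (4 : Fin 5)) ∈ L) :
    HasK G 5 := by
  refine hasK_of_list G (by norm_num) L hnd ?_
  intro i j hij
  fin_cases i <;> fin_cases j <;> first | assumption | exact absurd hij (by decide)

/-- The graph `G - I` on the same vertex type. -/
def del (G : SimpleGraph V) (I : Set V) : SimpleGraph V where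
  Adj u v := G.Adj u v ∧ u ∉ I ∧ v ∉ I
  symm := ⟨fun _ _ h => ⟨h.1.symm, h.2.2, h.2.1⟩⟩
  loopless := ⟨fun v h => G.loopless.irrefl v h.1⟩

/-- Adding a dominating class. -/
lemma hasK_succ (G : SimpleGraph V) (I : Set V) (hdom : ∀ v, v ∉ I → ∃ w ∈ I, G.Adj v w)
    {k : ℕ} (hk : 2 ≤ k) (h : HasK (del G I) k) : HasK G (k + 1) := by
  classical
  obtain ⟨f, hf⟩ := h
  have h1 : ∀ i : Fin k, ∃ u, f u = i ∧ u ∉ I := by
    intro i
    have : ∃ j : Fin k, i ≠ j := by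
      by_contra hcon
      push Not at hcon
      have h0 := hcon ⟨0, by omega⟩
      have h1 := hcon ⟨1, by omega⟩
      rw [h0] at h1
      exact absurd (Fin.mk.inj_iff.mp h1) (by norm_num)
    obtain ⟨j, hj⟩ := this
    obtain ⟨u, v, huv, hu, hv⟩ := hf i j hj
    exact ⟨u, hu, huv.2.1⟩
  have h2 : ∀ i : Fin k, ∃ u w, G.Adj u w ∧ f u = i ∧ u ∉ I ∧ w ∈ I := by
    intro i
    obtain ⟨u, hu, huI⟩ := h1 i
    obtain ⟨w, hw, huw⟩ := hdom u huI
    exact ⟨u, w, huw, hu, huI, hw⟩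
  refine ⟨fun v => if v ∈ I then Fin.last k else (f v).castSucc, ?_⟩
  intro i j hij
  induction i using Fin.lastCases with
  | last =>
    induction j using Fin.lastCases with
    | last => exact absurd rfl hij
    | cast j =>
      obtain ⟨u, w, huw, hu, huI, hw⟩ := h2 j
      exact ⟨w, u, huw.symm, by simp [hw], by simp [huI, hu]⟩
  | cast i =>
    induction j using Fin.lastCases with
    | last =>
      obtain ⟨u, w, huw, hu, huI, hw⟩ := h2 i
      exact ⟨u, w, huw, by simp [huI, hu], by simp [hw]⟩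
    | cast j =>
      have hij' : i ≠ j := fun h => hij (by rw [h])
      obtain ⟨u, v, huv, hu, hv⟩ := hf i j hij'
      exact ⟨u, v, huv.1, by simp [huv.2.1, hu], by simp [huv.2.2, hv]⟩

/-- Colouring `I` with one extra colour. -/
lemma colorable_succ (G : SimpleGraph V) (I : Set V) (hind : ∀ u ∈ I, ∀ v ∈ I, ¬ G.Adj u v)
    {k : ℕ} (h : (del G I).Colorable k) : G.Colorable (k + 1) := by
  classical
  obtain ⟨C⟩ := h
  refine ⟨Coloring.mk (fun v => if v ∈ I then Fin.last k else (C v).castSucc) ?_⟩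
  intro u v huv
  by_cases hu : u ∈ I <;> by_cases hv : v ∈ I
  · exact absurd huv (hind u hu v hv)
  · simp only [hu, hv, if_true, if_false]
    exact (Fin.castSucc_lt_last _).ne'
  · simp only [hu, hv, if_true, if_false]
    exact (Fin.castSucc_lt_last _).ne
  · simp only [hu, hv, if_false]
    intro h
    have h' : C u = C v := Fin.castSucc_injective k h
    exact C.valid (v := u) (w := v) ⟨huv, hu, hv⟩ h'

/-- Path on eight vertices. -/
lemma path8 (H : SimpleGraph V) (p : ℕ → V) (hadj : ∀ i, i < 7 → H.Adj (p i) (p (i + 1)))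
    (hinj : ∀ i j, i < j → j < 8 → p i ≠ p j) : HasK H 4 := by
  refine hasK4_of_list H [(p 0, 0), (p 1, 1), (p 2, 2), (p 3, 0), (p 4, 3), (p 5, 1), (p 6, 2),
    (p 7, 3)] ?_ ?_ ?_ ?_ ?_ ?_ ?_
  · have : ([(p 0, 0), (p 1, 1), (p 2, 2), (p 3, 0), (p 4, 3), (p 5, 1), (p 6, 2),
    (p 7, 3)] : List (V × Fin 4)).map Prod.fst = (List.range 8).map p := by
      simp [List.range_succ]
    rw [this]
    apply List.Nodup.map_on _ (List.nodup_range)
    intro i hi j hj hij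
    rw [List.mem_range] at hi hj
    rcases lt_trichotomy i j with h | h | h
    · exact absurd hij (hinj i j h hj)
    · exact h
    · exact absurd hij.symm (hinj j i h hi)
  · exact ⟨p 0, p 1, hadj 0 (by norm_num), by simp, by simp⟩
  · exact ⟨p 3, p 2, (hadj 2 (by norm_num)).symm, by simp, by simp⟩
  · exact ⟨p 3, p 4, hadj 3 (by norm_num), by simp, by simp⟩
  · exact ⟨p 1, p 2, hadj 1 (by norm_num), by simp, by simp⟩
  · exact ⟨p 5, p 4, (hadj 4 (by norm_num)).symm, by simp, by simp⟩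
  · exact ⟨p 6, p 7, hadj 6 (by norm_num), by simp, by simp⟩

/-- A closed walk of odd length. -/
def OddLoop (H : SimpleGraph V) (l : ℕ) : Prop :=
  Odd l ∧ ∃ c : ℕ → V, c l = c 0 ∧ ∀ i, i < l → H.Adj (c i) (c (i + 1))

lemma exists_oddLoop (H : SimpleGraph V) (h : ¬ H.Colorable 2) : ∃ l, OddLoop H l := by
  rw [two_colorable_iff_forall_loop_even] at h
  push Not at h
  obtain ⟨u, w, hw⟩ := h
  refine ⟨w.length, Nat.not_even_iff_odd.mp hw, w.getVert, ?_, ?_⟩
  · rw [Walk.getVert_length, Walk.getVert_zero]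
  · intro i hi
    exact w.adj_getVert_succ hi

lemma loop_sub (H : SimpleGraph V) {l : ℕ} (c : ℕ → V)
    (hadj : ∀ i, i < l → H.Adj (c i) (c (i + 1))) {i j : ℕ} (hij : i < j) (hj : j ≤ l)
    (heq : c i = c j) (hodd : Odd (j - i)) : OddLoop H (j - i) := by
  refine ⟨hodd, fun t => c (i + t), ?_, ?_⟩
  · simp only [add_zero]
    rw [heq]
    congr 1
    omega
  · intro t ht
    have := hadj (i + t) (by omega)
    simpa [add_assoc] using this

lemma loop_compl (H : SimpleGraph V) {l : ℕ} (c : ℕ → V) (hcl : c l = c 0)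
    (hadj : ∀ i, i < l → H.Adj (c i) (c (i + 1))) {i j : ℕ} (hij : i < j) (hj : j ≤ l)
    (heq : c i = c j) (hodd : Odd (l - (j - i))) : OddLoop H (l - (j - i)) := by
  refine ⟨hodd, fun t => if t ≤ i then c t else c (t + (j - i)), ?_, ?_⟩
  · simp only [Nat.zero_le, if_true]
    by_cases h : l - (j - i) ≤ i
    · have h1 : l = j := by omega
      have h2 : l - (j - i) = i := by omega
      rw [if_pos h, h2, heq, ← h1, hcl]
    · rw [if_neg h]
      have : l - (j - i) + (j - i) = l := by omega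
      rw [this, hcl]
  · intro t ht
    beta_reduce
    by_cases h1 : t + 1 ≤ i
    · rw [if_pos (by omega), if_pos h1]
      exact hadj t (by omega)
    · by_cases h2 : t ≤ i
      · rw [if_pos h2, if_neg h1]
        have h3 : t = i := by omega
        rw [h3, heq]
        have h4 : i + 1 + (j - i) = j + 1 := by omega
        rw [h4]
        exact hadj j (by omega)
      · rw [if_neg h2, if_neg h1]
        have h4 : t + 1 + (j - i) = t + (j - i) + 1 := by omega
        rw [h4]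
        exact hadj _ (by omega)

lemma loop_chord1 (H : SimpleGraph V) {l : ℕ} (c : ℕ → V)
    (hadj : ∀ i, i < l → H.Adj (c i) (c (i + 1))) {i j : ℕ} (hij : i < j) (hj : j ≤ l)
    (hch : H.Adj (c i) (c j)) (hodd : Odd (j - i + 1)) : OddLoop H (j - i + 1) := by
  refine ⟨hodd, fun t => if t ≤ j - i then c (i + t) else c i, ?_, ?_⟩
  · simp
  · intro t ht
    by_cases h1 : t + 1 ≤ j - i
    · simp only [h1, if_true]
      rw [if_pos (by omega)]
      exact hadj (i + t) (by omega)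
    · have h2 : t = j - i := by omega
      beta_reduce
      rw [if_pos (by omega), if_neg h1, h2]
      have h3 : i + (j - i) = j := by omega
      rw [h3]
      exact hch.symm

lemma loop_chord2 (H : SimpleGraph V) {l : ℕ} (c : ℕ → V) (hcl : c l = c 0)
    (hadj : ∀ i, i < l → H.Adj (c i) (c (i + 1))) {i j : ℕ} (hij : i < j) (hj : j ≤ l)
    (hch : H.Adj (c i) (c j)) (hodd : Odd (l - (j - i) + 1)) : OddLoop H (l - (j - i) + 1) := by
  refine ⟨hodd, fun t => if t ≤ i then c t else c (t + (j - i) - 1), ?_, ?_⟩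
  · simp only [Nat.zero_le, if_true]
    rw [if_neg (by omega)]
    have : l - (j - i) + 1 + (j - i) - 1 = l := by omega
    rw [this, hcl]
  · intro t ht
    beta_reduce
    by_cases h1 : t + 1 ≤ i
    · rw [if_pos (by omega), if_pos h1]
      exact hadj t (by omega)
    · by_cases h2 : t ≤ i
      · rw [if_pos h2, if_neg h1]
        have h3 : t = i := by omega
        rw [h3]
        have h4 : i + 1 + (j - i) - 1 = j := by omega
        rw [h4]
        exact hch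
      · rw [if_neg h2, if_neg h1]
        have h4 : t + 1 + (j - i) - 1 = t + (j - i) - 1 + 1 := by omega
        rw [h4]
        exact hadj _ (by omega)

lemma min_inj (H : SimpleGraph V) {l : ℕ} (hodd : Odd l) (c : ℕ → V) (hcl : c l = c 0)
    (hadj : ∀ i, i < l → H.Adj (c i) (c (i + 1))) (hmin : ∀ m, m < l → ¬ OddLoop H m) :
    ∀ i j, i < j → j < l → c i ≠ c j := by
  intro i j hij hj heq
  rcases Nat.even_or_odd (j - i) with he | ho
  · have h1 : Odd (l - (j - i)) := by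
      rw [Nat.odd_iff] at *
      rw [Nat.even_iff] at he
      omega
    exact hmin _ (by omega) (loop_compl H c hcl hadj hij hj.le heq h1)
  · exact hmin _ (by omega) (loop_sub H c hadj hij hj.le heq ho)

lemma min_chord (H : SimpleGraph V) {l : ℕ} (hodd : Odd l) (c : ℕ → V) (hcl : c l = c 0)
    (hadj : ∀ i, i < l → H.Adj (c i) (c (i + 1))) (hmin : ∀ m, m < l → ¬ OddLoop H m) :
    ∀ i j, i < j → j < l → H.Adj (c i) (c j) → j = i + 1 ∨ (i = 0 ∧ j + 1 = l) := by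
  intro i j hij hj hch
  by_contra hcon
  push Not at hcon
  rcases Nat.even_or_odd (j - i) with he | ho
  · have h1 : Odd (j - i + 1) := he.add_one
    exact hmin _ (by omega) (loop_chord1 H c hadj hij hj.le hch h1)
  · have h1 : Odd (l - (j - i) + 1) := by
      rw [Nat.odd_iff] at *
      omega
    refine hmin _ ?_ (loop_chord2 H c hcl hadj hij hj.le hch h1)
    omega

/-- Existence of a minimal odd closed walk: it is an induced cycle. -/
lemma exists_min (H : SimpleGraph V) (h : ¬ H.Colorable 2)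
    (htf : ∀ a b d, H.Adj a b → H.Adj b d → ¬ H.Adj a d) :
    ∃ (l : ℕ) (c : ℕ → V), 5 ≤ l ∧ Odd l ∧ c l = c 0 ∧ (∀ i, i < l → H.Adj (c i) (c (i + 1))) ∧
      (∀ i j, i < j → j < l → c i ≠ c j) ∧
      (∀ i j, i < j → j < l → H.Adj (c i) (c j) → j = i + 1 ∨ (i = 0 ∧ j + 1 = l)) := by
  classical
  have hex := exists_oddLoop H h
  obtain ⟨hodd, c, hcl, hadj⟩ := Nat.find_spec hex
  set l := Nat.find hex with hl
  have hmin : ∀ m, m < l → ¬ OddLoop H m := fun m hm => Nat.find_min hex hm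
  refine ⟨l, c, ?_, hodd, hcl, hadj, min_inj H hodd c hcl hadj hmin,
    min_chord H hodd c hcl hadj hmin⟩
  by_contra hlt
  push Not at hlt
  have : l = 1 ∨ l = 3 := by
    rw [Nat.odd_iff] at hodd
    omega
  rcases this with h1 | h3
  · rw [h1] at hcl hadj
    have := hadj 0 (by norm_num)
    rw [zero_add, hcl] at this
    exact H.loopless.irrefl _ this
  · rw [h3] at hcl hadj
    have h0 := hadj 0 (by norm_num)
    have h1 := hadj 1 (by norm_num)
    have h2 := hadj 2 (by norm_num)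
    norm_num at h0 h1 h2
    rw [hcl] at h2
    exact htf _ _ _ h0 h1 h2.symm

/-! ### Structure of `H` around a 7-cycle -/

lemma cyc7_pendant (H : SimpleGraph V) (c : Fin 7 → V) (hadj : ∀ i, H.Adj (c i) (c (i + 1)))
    (hinj : Function.Injective c) (u : V) (hu : ∀ i, u ≠ c i) (h : H.Adj u (c 0)) : HasK H 4 := by
  refine hasK4_of_list H [(u, 0), (c 0, 1), (c 1, 2), (c 2, 0), (c 3, 3), (c 4, 1), (c 5, 2),
    (c 6, 3)] ?_ ?_ ?_ ?_ ?_ ?_ ?_
  · simp [hinj.eq_iff, hu]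
  · exact ⟨u, c 0, h, by simp, by simp⟩
  · exact ⟨c 2, c 1, (hadj 1).symm, by simp, by simp⟩
  · exact ⟨c 2, c 3, hadj 2, by simp, by simp⟩
  · exact ⟨c 0, c 1, hadj 0, by simp, by simp⟩
  · exact ⟨c 4, c 3, (hadj 3).symm, by simp, by simp⟩
  · exact ⟨c 5, c 6, hadj 5, by simp, by simp⟩

lemma cyc7_disjoint (H : SimpleGraph V) (c : Fin 7 → V) (hadj : ∀ i, H.Adj (c i) (c (i + 1)))
    (hinj : Function.Injective c) (u v : V) (hu : ∀ i, u ≠ c i) (hv : ∀ i, v ≠ c i)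
    (h : H.Adj u v) : HasK H 4 := by
  refine hasK4_of_list H [(u, 0), (v, 1), (c 0, 2), (c 1, 0), (c 2, 3), (c 3, 2), (c 4, 1),
    (c 5, 3)] ?_ ?_ ?_ ?_ ?_ ?_ ?_
  · simp [hinj.eq_iff, hu, hv, h.ne]
  · exact ⟨u, v, h, by simp, by simp⟩
  · exact ⟨c 1, c 0, (hadj 0).symm, by simp, by simp⟩
  · exact ⟨c 1, c 2, hadj 1, by simp, by simp⟩
  · exact ⟨c 4, c 3, (hadj 3).symm, by simp, by simp⟩
  · exact ⟨c 4, c 5, hadj 4, by simp, by simp⟩
  · exact ⟨c 3, c 2, (hadj 2).symm, by simp, by simp⟩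

lemma cyc7_outside (H : SimpleGraph V) (hH : ¬ HasK H 4) (c : Fin 7 → V)
    (hadj : ∀ i, H.Adj (c i) (c (i + 1))) (hinj : Function.Injective c) (u v : V)
    (h : H.Adj u v) : ∃ i, u = c i := by
  by_contra hu
  push Not at hu
  by_cases hv : ∃ j, v = c j
  · obtain ⟨j, rfl⟩ := hv
    apply hH
    refine cyc7_pendant H (fun i => c (i + j)) (fun i => ?_) ?_ u (fun i => hu _) ?_
    · have := hadj (i + j)
      rwa [add_right_comm] at this
    · intro a b hab
      exact add_right_cancel (hinj hab)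
    · simpa using h
  · push Not at hv
    exact hH (cyc7_disjoint H c hadj hinj u v hu hv h)

/-! ### Structure of `H` around a 5-cycle -/

section five

variable (H : SimpleGraph V) (c : Fin 5 → V) (hadj : ∀ i, H.Adj (c i) (c (i + 1)))
  (hinj : Function.Injective c)

include hadj hinj

lemma cyc5_a0 (x y : V) (hx : ∀ i, x ≠ c i) (hy : ∀ i, y ≠ c i) (hxy : x ≠ y)
    (h1 : H.Adj x (c 4)) (h2 : H.Adj y (c 4)) : HasK H 4 := by
  refine hasK4_of_list H [(x, 1), (y, 2), (c 0, 0), (c 1, 1), (c 2, 2), (c 3, 0), (c 4, 3)]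
    ?_ ?_ ?_ ?_ ?_ ?_ ?_
  · simp [hinj.eq_iff, hx, hy, hxy]
  · exact ⟨c 0, c 1, hadj 0, by simp, by simp⟩
  · exact ⟨c 3, c 2, (hadj 2).symm, by simp, by simp⟩
  · exact ⟨c 3, c 4, hadj 3, by simp, by simp⟩
  · exact ⟨c 1, c 2, hadj 1, by simp, by simp⟩
  · exact ⟨x, c 4, h1, by simp, by simp⟩
  · exact ⟨y, c 4, h2, by simp, by simp⟩

lemma cyc5_a1 (x y : V) (hx : ∀ i, x ≠ c i) (hy : ∀ i, y ≠ c i) (hxy : x ≠ y)
    (h1 : H.Adj x (c 1)) (h2 : H.Adj y (c 2)) : HasK H 4 := by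
  refine hasK4_of_list H [(x, 3), (y, 3), (c 0, 0), (c 1, 1), (c 2, 2), (c 3, 0), (c 4, 3)]
    ?_ ?_ ?_ ?_ ?_ ?_ ?_
  · simp [hinj.eq_iff, hx, hy, hxy]
  · exact ⟨c 0, c 1, hadj 0, by simp, by simp⟩
  · exact ⟨c 3, c 2, (hadj 2).symm, by simp, by simp⟩
  · exact ⟨c 3, c 4, hadj 3, by simp, by simp⟩
  · exact ⟨c 1, c 2, hadj 1, by simp, by simp⟩
  · exact ⟨c 1, x, h1.symm, by simp, by simp⟩
  · exact ⟨c 2, y, h2.symm, by simp, by simp⟩

lemma cyc5_a2 (x y : V) (hx : ∀ i, x ≠ c i) (hy : ∀ i, y ≠ c i) (hxy : x ≠ y)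
    (h1 : H.Adj x (c 4)) (h2 : H.Adj y (c 1)) : HasK H 4 := by
  refine hasK4_of_list H [(x, 2), (y, 3), (c 0, 0), (c 1, 1), (c 2, 2), (c 3, 0), (c 4, 3)]
    ?_ ?_ ?_ ?_ ?_ ?_ ?_
  · simp [hinj.eq_iff, hx, hy, hxy]
  · exact ⟨c 0, c 1, hadj 0, by simp, by simp⟩
  · exact ⟨c 3, c 2, (hadj 2).symm, by simp, by simp⟩
  · exact ⟨c 3, c 4, hadj 3, by simp, by simp⟩
  · exact ⟨c 1, c 2, hadj 1, by simp, by simp⟩
  · exact ⟨c 1, y, h2.symm, by simp, by simp⟩
  · exact ⟨x, c 4, h1, by simp, by simp⟩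

lemma cyc5_b (x y : V) (hx : ∀ i, x ≠ c i) (hy : ∀ i, y ≠ c i)
    (h1 : H.Adj x (c 1)) (h2 : H.Adj x y) : HasK H 4 := by
  refine hasK4_of_list H [(x, 3), (y, 2), (c 0, 0), (c 1, 1), (c 2, 2), (c 3, 0), (c 4, 3)]
    ?_ ?_ ?_ ?_ ?_ ?_ ?_
  · simp [hinj.eq_iff, hx, hy, h2.ne]
  · exact ⟨c 0, c 1, hadj 0, by simp, by simp⟩
  · exact ⟨c 3, c 2, (hadj 2).symm, by simp, by simp⟩
  · exact ⟨c 3, c 4, hadj 3, by simp, by simp⟩
  · exact ⟨c 1, c 2, hadj 1, by simp, by simp⟩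
  · exact ⟨c 1, x, h1.symm, by simp, by simp⟩
  · exact ⟨y, x, h2.symm, by simp, by simp⟩

lemma cyc5_c (x y z : V) (hx : ∀ i, x ≠ c i) (hy : ∀ i, y ≠ c i) (hz : ∀ i, z ≠ c i)
    (hxy : x ≠ y) (hxz : x ≠ z) (h1 : H.Adj x (c 1)) (h2 : H.Adj y z) : HasK H 4 := by
  refine hasK4_of_list H [(x, 3), (y, 2), (z, 3), (c 0, 0), (c 1, 1), (c 2, 2), (c 3, 0),
    (c 4, 3)] ?_ ?_ ?_ ?_ ?_ ?_ ?_
  · simp [hinj.eq_iff, hx, hy, hz, h2.ne, hxy, hxz]
  · exact ⟨c 0, c 1, hadj 0, by simp, by simp⟩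
  · exact ⟨c 3, c 2, (hadj 2).symm, by simp, by simp⟩
  · exact ⟨c 3, c 4, hadj 3, by simp, by simp⟩
  · exact ⟨c 1, c 2, hadj 1, by simp, by simp⟩
  · exact ⟨c 1, x, h1.symm, by simp, by simp⟩
  · exact ⟨y, z, h2, by simp, by simp⟩

lemma cyc5_d (y z w : V) (hy : ∀ i, y ≠ c i) (hz : ∀ i, z ≠ c i) (hw : ∀ i, w ≠ c i)
    (hyw : y ≠ w) (h1 : H.Adj y z) (h2 : H.Adj z w) : HasK H 4 := by
  refine hasK4_of_list H [(y, 1), (z, 3), (w, 2), (c 0, 0), (c 1, 1), (c 2, 2), (c 3, 0),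
    (c 4, 3)] ?_ ?_ ?_ ?_ ?_ ?_ ?_
  · simp [hinj.eq_iff, hy, hz, hw, h1.ne, h2.ne, hyw]
  · exact ⟨c 0, c 1, hadj 0, by simp, by simp⟩
  · exact ⟨c 3, c 2, (hadj 2).symm, by simp, by simp⟩
  · exact ⟨c 3, c 4, hadj 3, by simp, by simp⟩
  · exact ⟨c 1, c 2, hadj 1, by simp, by simp⟩
  · exact ⟨y, z, h1, by simp, by simp⟩
  · exact ⟨w, z, h2.symm, by simp, by simp⟩

lemma cyc5_e (y z w u : V) (hy : ∀ i, y ≠ c i) (hz : ∀ i, z ≠ c i) (hw : ∀ i, w ≠ c i)
    (hu : ∀ i, u ≠ c i) (hyw : y ≠ w) (hyu : y ≠ u) (hzw : z ≠ w) (hzu : z ≠ u)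
    (h1 : H.Adj y z) (h2 : H.Adj w u) : HasK H 4 := by
  refine hasK4_of_list H [(y, 1), (z, 3), (w, 2), (u, 3), (c 0, 0), (c 1, 1), (c 2, 2), (c 3, 0),
    (c 4, 3)] ?_ ?_ ?_ ?_ ?_ ?_ ?_
  · simp [hinj.eq_iff, hy, hz, hw, hu, h1.ne, h2.ne, hyw, hyu, hzw, hzu]
  · exact ⟨c 0, c 1, hadj 0, by simp, by simp⟩
  · exact ⟨c 3, c 2, (hadj 2).symm, by simp, by simp⟩
  · exact ⟨c 3, c 4, hadj 3, by simp, by simp⟩
  · exact ⟨c 1, c 2, hadj 1, by simp, by simp⟩
  · exact ⟨y, z, h1, by simp, by simp⟩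
  · exact ⟨w, u, h2, by simp, by simp⟩

omit hinj in
lemma rot5_adj (k : Fin 5) (i : Fin 5) : H.Adj (c (i + k)) (c (i + 1 + k)) := by
  have := hadj (i + k)
  rwa [add_right_comm] at this

omit hadj in
lemma rot5_inj (k : Fin 5) : Function.Injective (fun i => c (i + k)) := by
  intro a b hab
  exact add_right_cancel (hinj hab)

lemma cyc5_a (x y : V) (hx : ∀ i, x ≠ c i) (hy : ∀ i, y ≠ c i) (hxy : x ≠ y) (i j : Fin 5)
    (h1 : H.Adj x (c i)) (h2 : H.Adj y (c j)) : HasK H 4 := by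
  have hcase : ∀ i j : Fin 5, j = i ∨ j = i + 1 ∨ j = i + 2 ∨ i = j + 2 ∨ i = j + 1 := by decide
  have r := fun k => rot5_adj H c hadj k
  have s := fun k => rot5_inj c hinj k
  rcases hcase i j with rfl | rfl | rfl | rfl | rfl
  · have e : (4 : Fin 5) + (j + 1) = j := (by decide : ∀ j : Fin 5, (4 : Fin 5) + (j + 1) = j) j
    exact cyc5_a0 H (fun k => c (k + (j + 1))) (r _) (s _) x y (fun k => hx _)
      (fun k => hy _) hxy (by beta_reduce; rw [e]; exact h1) (by beta_reduce; rw [e]; exact h2)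
  · have e1 : (1 : Fin 5) + (i + 4) = i := (by decide : ∀ i : Fin 5, (1 : Fin 5) + (i + 4) = i) i
    have e2 : (2 : Fin 5) + (i + 4) = i + 1 := (by decide : ∀ i : Fin 5, (2 : Fin 5) + (i + 4) = i + 1) i
    exact cyc5_a1 H (fun k => c (k + (i + 4))) (r _) (s _) x y (fun k => hx _)
      (fun k => hy _) hxy (by beta_reduce; rw [e1]; exact h1) (by beta_reduce; rw [e2]; exact h2)
  · have e1 : (4 : Fin 5) + (i + 1) = i := (by decide : ∀ i : Fin 5, (4 : Fin 5) + (i + 1) = i) i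
    have e2 : (1 : Fin 5) + (i + 1) = i + 2 := (by decide : ∀ i : Fin 5, (1 : Fin 5) + (i + 1) = i + 2) i
    exact cyc5_a2 H (fun k => c (k + (i + 1))) (r _) (s _) x y (fun k => hx _)
      (fun k => hy _) hxy (by beta_reduce; rw [e1]; exact h1) (by beta_reduce; rw [e2]; exact h2)
  · have e1 : (4 : Fin 5) + (j + 1) = j := (by decide : ∀ j : Fin 5, (4 : Fin 5) + (j + 1) = j) j
    have e2 : (1 : Fin 5) + (j + 1) = j + 2 := (by decide : ∀ j : Fin 5, (1 : Fin 5) + (j + 1) = j + 2) j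
    exact cyc5_a2 H (fun k => c (k + (j + 1))) (r _) (s _) y x (fun k => hy _)
      (fun k => hx _) hxy.symm (by beta_reduce; rw [e1]; exact h2)
      (by beta_reduce; rw [e2]; exact h1)
  · have e1 : (1 : Fin 5) + (j + 4) = j := (by decide : ∀ j : Fin 5, (1 : Fin 5) + (j + 4) = j) j
    have e2 : (2 : Fin 5) + (j + 4) = j + 1 := (by decide : ∀ j : Fin 5, (2 : Fin 5) + (j + 4) = j + 1) j
    exact cyc5_a1 H (fun k => c (k + (j + 4))) (r _) (s _) y x (fun k => hy _)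
      (fun k => hx _) hxy.symm (by beta_reduce; rw [e1]; exact h2)
      (by beta_reduce; rw [e2]; exact h1)

lemma cyc5_b' (x y : V) (hx : ∀ i, x ≠ c i) (hy : ∀ i, y ≠ c i) (i : Fin 5)
    (h1 : H.Adj x (c i)) (h2 : H.Adj x y) : HasK H 4 := by
  have e1 : (1 : Fin 5) + (i + 4) = i := (by decide : ∀ i : Fin 5, (1 : Fin 5) + (i + 4) = i) i
  exact cyc5_b H (fun k => c (k + (i + 4))) (rot5_adj H c hadj _) (rot5_inj c hinj _) x y
    (fun k => hx _) (fun k => hy _) (by beta_reduce; rw [e1]; exact h1) h2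

lemma cyc5_c' (x y z : V) (hx : ∀ i, x ≠ c i) (hy : ∀ i, y ≠ c i) (hz : ∀ i, z ≠ c i)
    (hxy : x ≠ y) (hxz : x ≠ z) (i : Fin 5) (h1 : H.Adj x (c i)) (h2 : H.Adj y z) :
    HasK H 4 := by
  have e1 : (1 : Fin 5) + (i + 4) = i := (by decide : ∀ i : Fin 5, (1 : Fin 5) + (i + 4) = i) i
  exact cyc5_c H (fun k => c (k + (i + 4))) (rot5_adj H c hadj _) (rot5_inj c hinj _) x y z
    (fun k => hx _) (fun k => hy _) (fun k => hz _) hxy hxz
    (by beta_reduce; rw [e1]; exact h1) h2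

/-- The structure of the edges outside the 5-cycle. -/
lemma cyc5_struct (hH : ¬ HasK H 4) (hout : ∃ v, ∀ i, v ≠ c i) :
    (∃ x, (∀ i, x ≠ c i) ∧ ∀ u v, H.Adj u v → (∀ i, u ≠ c i) → u = x ∧ ∃ i, v = c i) ∨
    (∃ p q, (∀ i, p ≠ c i) ∧ (∀ i, q ≠ c i) ∧ H.Adj p q ∧
      ∀ u v, H.Adj u v → (∀ i, u ≠ c i) → (u = p ∧ v = q) ∨ (u = q ∧ v = p)) := by
  by_cases h1 : ∃ x i, (∀ i, x ≠ c i) ∧ H.Adj x (c i)
  · left
    obtain ⟨x, i, hx, hxi⟩ := h1
    refine ⟨x, hx, ?_⟩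
    intro u v huv hu
    by_cases hv : ∃ j, v = c j
    · obtain ⟨j, rfl⟩ := hv
      refine ⟨?_, j, rfl⟩
      by_contra hux
      exact hH (cyc5_a H c hadj hinj u x hu hx hux j i huv hxi)
    · push Not at hv
      exfalso
      by_cases hux : u = x
      · subst hux
        exact hH (cyc5_b' H c hadj hinj u v hu hv i hxi huv)
      · by_cases hvx : v = x
        · subst hvx
          exact hH (cyc5_b' H c hadj hinj v u hv hu i hxi huv.symm)
        · exact hH (cyc5_c' H c hadj hinj x u v hx hu hv (Ne.symm hux) (Ne.symm hvx) i hxi huv)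
  · push Not at h1
    by_cases h2 : ∃ p q, (∀ i, p ≠ c i) ∧ (∀ i, q ≠ c i) ∧ H.Adj p q
    · right
      obtain ⟨p, q, hp, hq, hpq⟩ := h2
      refine ⟨p, q, hp, hq, hpq, ?_⟩
      intro u v huv hu
      have hv : ∀ i, v ≠ c i := by
        intro i hvi
        exact h1 u i hu (hvi ▸ huv)
      by_contra hcon
      push Not at hcon
      apply hH
      by_cases hup : u = p
      · subst hup
        have hvq := hcon.1 rfl
        exact cyc5_d H c hadj hinj v u q hv hu hq hvq huv.symm hpq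
      · by_cases huq : u = q
        · subst huq
          have hvp := hcon.2 rfl
          exact cyc5_d H c hadj hinj v u p hv hu hp hvp huv.symm hpq.symm
        · by_cases hvp : v = p
          · subst hvp
            exact cyc5_d H c hadj hinj u v q hu hv hq huq huv hpq
          · by_cases hvq : v = q
            · subst hvq
              exact cyc5_d H c hadj hinj u v p hu hv hp hup huv hpq.symm
            · exact cyc5_e H c hadj hinj p q u v hp hq hu hv (Ne.symm hup) (Ne.symm hvp)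
                (Ne.symm huq) (Ne.symm hvq) hpq huv
    · left
      push Not at h2
      obtain ⟨x, hx⟩ := hout
      refine ⟨x, hx, ?_⟩
      intro u v huv hu
      exfalso
      by_cases hv : ∃ j, v = c j
      · obtain ⟨j, rfl⟩ := hv
        exact h1 u j hu huv
      · push Not at hv
        exact h2 u v hu hv huv

end five

/-! ### Colouring arguments -/

/-- To prove 3-colourability it is enough to check three kinds of edges. -/
lemma colorable_check {n : ℕ} [NeZero n] (G : SimpleGraph V) (I : Set V) (c : Fin n → V)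
    (hind : ∀ u ∈ I, ∀ v ∈ I, ¬ G.Adj u v)
    (hchord : ∀ i j, (del G I).Adj (c i) (c j) → j = i + 1 ∨ i = j + 1)
    (col : V → Fin 3)
    (h1 : ∀ u ∈ I, ∀ v, v ∉ I → G.Adj u v → col u ≠ col v)
    (h2 : ∀ u v, (del G I).Adj u v → u ∉ Set.range c → col u ≠ col v)
    (h3 : ∀ i, col (c i) ≠ col (c (i + 1))) : G.Colorable 3 := by
  refine ⟨Coloring.mk col ?_⟩
  intro u v huv
  by_cases hu : u ∈ I <;> by_cases hv : v ∈ I
  · exact absurd huv (hind u hu v hv)
  · exact h1 u hu v hv huv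
  · exact (h1 v hv u hu huv.symm).symm
  · have hH : (del G I).Adj u v := ⟨huv, hu, hv⟩
    by_cases hur : u ∈ Set.range c
    · by_cases hvr : v ∈ Set.range c
      · obtain ⟨i, rfl⟩ := hur
        obtain ⟨j, rfl⟩ := hvr
        rcases hchord i j hH with rfl | rfl
        · exact h3 i
        · exact (h3 j).symm
      · exact (h2 v u hH.symm hvr).symm
    · exact h2 u v hH hur

section B1

/-- The situation of case B1. -/
structure SitB1 (G : SimpleGraph V) (I : Set V) (c : Fin 5 → V) (x : V) : Prop where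
  tf : ∀ a b d, G.Adj a b → G.Adj b d → ¬ G.Adj a d
  ind : ∀ u ∈ I, ∀ v ∈ I, ¬ G.Adj u v
  dom : ∀ v, v ∉ I → ∃ w ∈ I, G.Adj v w
  no3 : ¬ G.Colorable 3
  cI : ∀ i, c i ∉ I
  adj : ∀ i, G.Adj (c i) (c (i + 1))
  inj : Function.Injective c
  hx : x ∉ Set.range c
  str : ∀ u v, (del G I).Adj u v → u ∉ Set.range c → u = x ∧ v ∈ Set.range c

lemma SitB1.rot {G : SimpleGraph V} {I : Set V} {c : Fin 5 → V} {x : V} (h : SitB1 G I c x)
    (k : Fin 5) : SitB1 G I (fun i => c (i + k)) x := by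
  have hr : Set.range (fun i => c (i + k)) = Set.range c :=
    (Equiv.addRight k).surjective.range_comp c
  refine ⟨h.tf, h.ind, h.dom, h.no3, fun i => h.cI _, ?_, ?_, ?_, ?_⟩
  · intro i
    have := h.adj (i + k)
    rwa [add_right_comm] at this
  · intro a b hab
    exact add_right_cancel (h.inj hab)
  · rw [hr]; exact h.hx
  · rw [hr]; exact h.str

lemma SitB1.refl {G : SimpleGraph V} {I : Set V} {c : Fin 5 → V} {x : V} (h : SitB1 G I c x) :
    SitB1 G I (fun i => c (-i)) x := by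
  have hr : Set.range (fun i => c (-i)) = Set.range c :=
    (Equiv.neg (Fin 5)).surjective.range_comp c
  refine ⟨h.tf, h.ind, h.dom, h.no3, fun i => h.cI _, ?_, ?_, ?_, ?_⟩
  · intro i
    have h1 := h.adj (-(i + 1))
    have h2 : -(i + 1) + 1 = -i := by
      rw [neg_add, neg_add_cancel_right]
    rw [h2] at h1
    exact h1.symm
  · intro a b hab
    exact neg_injective (h.inj hab)
  · rw [hr]; exact h.hx
  · rw [hr]; exact h.str

lemma chord5 {G : SimpleGraph V} {c : Fin 5 → V} (tf : ∀ a b d, G.Adj a b → G.Adj b d → ¬ G.Adj a d)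
    (adj : ∀ i, G.Adj (c i) (c (i + 1))) :
    ∀ i j, G.Adj (c i) (c j) → j = i + 1 ∨ i = j + 1 := by
  intro i j hij
  have key : ∀ i j : Fin 5, j = i ∨ j = i + 1 ∨ i = j + 1 ∨ j = i + 1 + 1 ∨ i = j + 1 + 1 := by
    decide
  rcases key i j with rfl | h | h | rfl | rfl
  · exact absurd hij (G.loopless.irrefl _)
  · exact Or.inl h
  · exact Or.inr h
  · exact absurd hij (tf _ _ _ (adj i) (adj (i + 1)))
  · exact absurd hij.symm (tf _ _ _ (adj j) (adj (j + 1)))

lemma SitB1.tplus0 {G : SimpleGraph V} {I : Set V} {c : Fin 5 → V} {x : V} (h : SitB1 G I c x)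
    (h1 : ¬ (del G I).Adj x (c 1)) (h4 : ¬ (del G I).Adj x (c 4)) :
    ∃ t ∈ I, G.Adj t (c 0) ∧ G.Adj t (c 2) := by
  classical
  by_contra hcon
  push Not at hcon
  apply h.no3
  set col : V → Fin 3 := fun v => if v ∈ I then (if G.Adj v (c 2) then 1 else 0) else
    if v = c 2 then 0 else if v = c 3 ∨ v = c 0 then 1 else 2 with hcol
  have hcI := h.cI
  have hc0 : col (c 0) = 1 := by simp [hcol, hcI, h.inj.eq_iff]
  have hc1 : col (c 1) = 2 := by simp [hcol, hcI, h.inj.eq_iff]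
  have hc2 : col (c 2) = 0 := by simp [hcol, hcI, h.inj.eq_iff]
  have hc3 : col (c 3) = 1 := by simp [hcol, hcI, h.inj.eq_iff]
  have hc4 : col (c 4) = 2 := by simp [hcol, hcI, h.inj.eq_iff]
  have hII : ∀ v ∈ I, col v ≠ 2 := by
    intro v hv
    simp only [hcol, hv, if_true]
    split_ifs <;> decide
  refine colorable_check G I c h.ind ?_ col ?_ ?_ ?_
  · intro i j hij
    exact chord5 h.tf h.adj i j hij.1
  · intro u hu v hv huv
    by_cases hv2 : v = c 2
    · subst hv2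
      rw [hc2]
      simp [hcol, hu, huv]
    · by_cases hv3 : v = c 3
      · subst hv3
        rw [hc3]
        have : ¬ G.Adj u (c 2) := fun h' => h.tf _ _ _ h' (h.adj 2) huv
        simp [hcol, hu, this]
      · by_cases hv0 : v = c 0
        · subst hv0
          rw [hc0]
          have : ¬ G.Adj u (c 2) := hcon u hu huv
          simp [hcol, hu, this]
        · have : col v = 2 := by simp [hcol, hv, hv2, hv3, hv0]
          rw [this]
          exact hII u hu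
  · intro u v huv hur
    obtain ⟨rfl, i, rfl⟩ := h.str u v huv hur
    have hu : ∀ j, u ≠ c j := fun j hj => hur ⟨j, hj.symm⟩
    have hcu : col u = 2 := by simp [hcol, huv.2.1, hu]
    rw [hcu]
    fin_cases i
    · exact fun h' => absurd (h'.trans hc0) (by decide)
    · exact absurd huv h1
    · exact fun h' => absurd (h'.trans hc2) (by decide)
    · exact fun h' => absurd (h'.trans hc3) (by decide)
    · exact absurd huv h4
  · intro i
    fin_cases i
    · exact fun h' => absurd (hc0.symm.trans (h'.trans hc1)) (by decide)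
    · exact fun h' => absurd (hc1.symm.trans (h'.trans hc2)) (by decide)
    · exact fun h' => absurd (hc2.symm.trans (h'.trans hc3)) (by decide)
    · exact fun h' => absurd (hc3.symm.trans (h'.trans hc4)) (by decide)
    · exact fun h' => absurd (hc4.symm.trans (h'.trans hc0)) (by decide)

lemma SitB1.tminus0 {G : SimpleGraph V} {I : Set V} {c : Fin 5 → V} {x : V} (h : SitB1 G I c x)
    (h1 : ¬ (del G I).Adj x (c 1)) (h4 : ¬ (del G I).Adj x (c 4)) :
    ∃ t ∈ I, G.Adj t (c 0) ∧ G.Adj t (c 3) := by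
  exact h.refl.tplus0 h4 h1

/-- `tw j`: a vertex of `I` adjacent to both cycle neighbours of `c j`. -/
lemma SitB1.tplus {G : SimpleGraph V} {I : Set V} {c : Fin 5 → V} {x : V} (h : SitB1 G I c x)
    (i a b d : Fin 5) (ha : 1 + i = a) (hb : 4 + i = b) (hd : 2 + i = d)
    (h1 : ¬ (del G I).Adj x (c a)) (h4 : ¬ (del G I).Adj x (c b)) :
    ∃ t ∈ I, G.Adj t (c i) ∧ G.Adj t (c d) := by
  subst ha hb hd
  have := (h.rot i).tplus0 h1 h4
  simpa using this

lemma SitB1.tminus {G : SimpleGraph V} {I : Set V} {c : Fin 5 → V} {x : V} (h : SitB1 G I c x)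
    (i a b d : Fin 5) (ha : 1 + i = a) (hb : 4 + i = b) (hd : 3 + i = d)
    (h1 : ¬ (del G I).Adj x (c a)) (h4 : ¬ (del G I).Adj x (c b)) :
    ∃ t ∈ I, G.Adj t (c i) ∧ G.Adj t (c d) := by
  subst ha hb hd
  have := (h.rot i).tminus0 h1 h4
  simpa using this

/-- No further edges: five twins. -/
lemma SitB1.case0 {G : SimpleGraph V} {I : Set V} {c : Fin 5 → V} {x : V} (h : SitB1 G I c x)
    (hno : ∀ i, ¬ (del G I).Adj x (c i)) : HasK G 5 := by
  obtain ⟨t1, ht1, a1, b1⟩ := h.tplus 0 1 4 2 (by decide) (by decide) (by decide) (hno _) (hno _)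
  obtain ⟨t2, ht2, a2, b2⟩ := h.tplus 1 2 0 3 (by decide) (by decide) (by decide) (hno _) (hno _)
  obtain ⟨t3, ht3, a3, b3⟩ := h.tplus 2 3 1 4 (by decide) (by decide) (by decide) (hno _) (hno _)
  obtain ⟨t4, ht4, a4, b4⟩ := h.tplus 3 4 2 0 (by decide) (by decide) (by decide) (hno _) (hno _)
  obtain ⟨t0, ht0, a0, b0⟩ := h.tplus 4 0 3 1 (by decide) (by decide) (by decide) (hno _) (hno _)
  have hI : ∀ t ∈ I, ∀ i, t ≠ c i := fun t ht i e => h.cI i (e ▸ ht)
  have e01 := h.adj 0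
  have e12 := h.adj 1
  have e23 := h.adj 2
  have e34 := h.adj 3
  have e40 := h.adj 4
  simp only [Fin.isValue, Fin.reduceAdd] at e01 e12 e23 e34 e40
  have n01 : t0 ≠ t1 := fun e => h.tf _ _ _ (e ▸ a1) e01 b0
  have n02 : t0 ≠ t2 := fun e => h.tf _ _ _ (e ▸ b2) e34 a0
  have n03 : t0 ≠ t3 := fun e => h.tf _ _ _ (e ▸ a3) e12.symm b0
  have n04 : t0 ≠ t4 := fun e => h.tf _ _ _ (e ▸ a4) e34 a0
  have n12 : t1 ≠ t2 := fun e => h.tf _ _ _ (e ▸ a2) e12 b1
  have n13 : t1 ≠ t3 := fun e => h.tf _ _ _ (e ▸ b3) e40 a1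
  have n14 : t1 ≠ t4 := fun e => h.tf _ _ _ (e ▸ a4) e23.symm b1
  have n23 : t2 ≠ t3 := fun e => h.tf _ _ _ (e ▸ a3) e23 b2
  have n24 : t2 ≠ t4 := fun e => h.tf _ _ _ (e ▸ b4) e01 a2
  have n34 : t3 ≠ t4 := fun e => h.tf _ _ _ (e ▸ a4) e34 b3
  refine hasK5_of_list G [(t0, 1), (t1, 2), (t2, 3), (t3, 4), (t4, 0), (c 0, 0), (c 1, 1),
    (c 2, 2), (c 3, 3), (c 4, 4)] ?_ ?_ ?_ ?_ ?_ ?_ ?_ ?_ ?_ ?_ ?_
  · simp [h.inj.eq_iff, hI t0 ht0, hI t1 ht1, hI t2 ht2, hI t3 ht3, hI t4 ht4, n01, n02, n03, n04,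
      n12, n13, n14, n23, n24, n34]
  · exact ⟨c 0, c 1, e01, by simp, by simp⟩
  · exact ⟨c 0, t1, a1.symm, by simp, by simp⟩
  · exact ⟨t4, c 3, a4, by simp, by simp⟩
  · exact ⟨c 0, c 4, e40.symm, by simp, by simp⟩
  · exact ⟨c 1, c 2, e12, by simp, by simp⟩
  · exact ⟨c 1, t2, a2.symm, by simp, by simp⟩
  · exact ⟨t0, c 4, a0, by simp, by simp⟩
  · exact ⟨c 2, c 3, e23, by simp, by simp⟩
  · exact ⟨c 2, t3, a3.symm, by simp, by simp⟩
  · exact ⟨c 3, c 4, e34, by simp, by simp⟩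

end B1

section B1b

/-- One pendant edge at `c 0`. -/
lemma SitB1.case1 {G : SimpleGraph V} {I : Set V} {c : Fin 5 → V} {x : V} (h : SitB1 G I c x)
    (hx0 : (del G I).Adj x (c 0)) (hno : ∀ i, i ≠ 0 → ¬ (del G I).Adj x (c i)) : HasK G 5 := by
  obtain ⟨t1, ht1, b1, a1⟩ := h.tminus 2 3 1 0 (by decide) (by decide) (by decide)
    (hno _ (by decide)) (hno _ (by decide))
  obtain ⟨t2, ht2, b2, a2⟩ := h.tminus 3 4 2 1 (by decide) (by decide) (by decide)
    (hno _ (by decide)) (hno _ (by decide))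
  obtain ⟨t3, ht3, a3, b3⟩ := h.tplus 2 3 1 4 (by decide) (by decide) (by decide)
    (hno _ (by decide)) (hno _ (by decide))
  obtain ⟨t4, ht4, a4, b4⟩ := h.tplus 3 4 2 0 (by decide) (by decide) (by decide)
    (hno _ (by decide)) (hno _ (by decide))
  have hI : ∀ t ∈ I, ∀ i, t ≠ c i := fun t ht i e => h.cI i (e ▸ ht)
  have hIx : ∀ t ∈ I, t ≠ x := fun t ht e => hx0.2.1 (e ▸ ht)
  have hxc : ∀ i, x ≠ c i := fun i e => h.hx ⟨i, e.symm⟩
  have e01 := h.adj 0
  have e12 := h.adj 1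
  have e23 := h.adj 2
  have e34 := h.adj 3
  have e40 := h.adj 4
  simp only [Fin.isValue, Fin.reduceAdd] at e01 e12 e23 e34 e40
  have n12 : t1 ≠ t2 := fun e => h.tf _ _ _ (e ▸ a2) e12 b1
  have n13 : t1 ≠ t3 := fun e => h.tf _ _ _ (e ▸ b3) e40 a1
  have n14 : t1 ≠ t4 := fun e => h.tf _ _ _ (e ▸ a4) e23.symm b1
  have n23 : t2 ≠ t3 := fun e => h.tf _ _ _ (e ▸ a3) e23 b2
  have n24 : t2 ≠ t4 := fun e => h.tf _ _ _ (e ▸ b4) e01 a2
  have n34 : t3 ≠ t4 := fun e => h.tf _ _ _ (e ▸ a4) e34 b3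
  refine hasK5_of_list G [(t1, 2), (t2, 4), (t3, 2), (t4, 1), (x, 3), (c 0, 0), (c 1, 1),
    (c 2, 2), (c 3, 3), (c 4, 4)] ?_ ?_ ?_ ?_ ?_ ?_ ?_ ?_ ?_ ?_ ?_
  · simp [h.inj.eq_iff, hI t1 ht1, hI t2 ht2, hI t3 ht3, hI t4 ht4, hIx t1 ht1, hIx t2 ht2,
      hIx t3 ht3, hIx t4 ht4, n12, n13, n14, n23, n24, n34, hxc]
  · exact ⟨c 0, c 1, e01, by simp, by simp⟩
  · exact ⟨c 0, t1, a1.symm, by simp, by simp⟩
  · exact ⟨c 0, x, hx0.1.symm, by simp, by simp⟩
  · exact ⟨c 0, c 4, e40.symm, by simp, by simp⟩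
  · exact ⟨c 1, c 2, e12, by simp, by simp⟩
  · exact ⟨t4, c 3, a4, by simp, by simp⟩
  · exact ⟨c 1, t2, a2.symm, by simp, by simp⟩
  · exact ⟨c 2, c 3, e23, by simp, by simp⟩
  · exact ⟨t3, c 4, b3, by simp, by simp⟩
  · exact ⟨c 3, c 4, e34, by simp, by simp⟩

/-- A twin of `c 0`. -/
lemma SitB1.case2 {G : SimpleGraph V} {I : Set V} {c : Fin 5 → V} {x : V} (h : SitB1 G I c x)
    (hx1 : (del G I).Adj x (c 1)) (hx4 : (del G I).Adj x (c 4)) : HasK G 5 := by
  have e01 := h.adj 0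
  have e12 := h.adj 1
  have e23 := h.adj 2
  have e34 := h.adj 3
  have e40 := h.adj 4
  simp only [Fin.isValue, Fin.reduceAdd] at e01 e12 e23 e34 e40
  have hx0 : ¬ (del G I).Adj x (c 0) := fun h' => h.tf _ _ _ h'.1 e01 hx1.1
  have hx2 : ¬ (del G I).Adj x (c 2) := fun h' => h.tf _ _ _ hx1.1 e12 h'.1
  have hx3 : ¬ (del G I).Adj x (c 3) := fun h' => h.tf _ _ _ h'.1 e34 hx4.1
  obtain ⟨t2, ht2, a2, b2⟩ := h.tplus 1 2 0 3 (by decide) (by decide) (by decide) hx2 hx0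
  obtain ⟨t0, ht0, b0, a0⟩ := h.tminus 1 2 0 4 (by decide) (by decide) (by decide) hx2 hx0
  obtain ⟨t3, ht3, b3, a3⟩ := h.tminus 4 0 3 2 (by decide) (by decide) (by decide) hx0 hx3
  obtain ⟨y, hy, hcy⟩ := h.dom (c 0) (h.cI 0)
  have hI : ∀ t ∈ I, ∀ i, t ≠ c i := fun t ht i e => h.cI i (e ▸ ht)
  have hIx : ∀ t ∈ I, t ≠ x := fun t ht e => hx1.2.1 (e ▸ ht)
  have hxc : ∀ i, x ≠ c i := fun i e => h.hx ⟨i, e.symm⟩
  have n02 : t0 ≠ t2 := fun e => h.tf _ _ _ (e ▸ b2) e34 a0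
  have n03 : t0 ≠ t3 := fun e => h.tf _ _ _ (e ▸ a3) e12.symm b0
  have n23 : t2 ≠ t3 := fun e => h.tf _ _ _ (e ▸ a3) e23 b2
  have ny0 : y ≠ t0 := fun e => h.tf _ _ _ hcy (e ▸ b0) e01
  have ny2 : y ≠ t2 := fun e => h.tf _ _ _ hcy (e ▸ a2) e01
  have ny3 : y ≠ t3 := fun e => h.tf _ _ _ hcy (e ▸ b3) e40.symm
  refine hasK5_of_list G [(y, 2), (t0, 3), (t2, 0), (t3, 2), (x, 1), (c 0, 0), (c 1, 1),
    (c 2, 2), (c 3, 3), (c 4, 4)] ?_ ?_ ?_ ?_ ?_ ?_ ?_ ?_ ?_ ?_ ?_
  · simp [h.inj.eq_iff, hI y hy, hI t0 ht0, hI t2 ht2, hI t3 ht3, hIx y hy, hIx t0 ht0,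
      hIx t2 ht2, hIx t3 ht3, ny0, ny2, ny3, n02, n03, n23, hxc]
  · exact ⟨c 0, c 1, e01, by simp, by simp⟩
  · exact ⟨c 0, y, hcy, by simp, by simp⟩
  · exact ⟨t2, c 3, b2, by simp, by simp⟩
  · exact ⟨c 0, c 4, e40.symm, by simp, by simp⟩
  · exact ⟨c 1, c 2, e12, by simp, by simp⟩
  · exact ⟨c 1, t0, b0.symm, by simp, by simp⟩
  · exact ⟨x, c 4, hx4.1, by simp, by simp⟩
  · exact ⟨c 2, c 3, e23, by simp, by simp⟩
  · exact ⟨t3, c 4, b3, by simp, by simp⟩
  · exact ⟨c 3, c 4, e34, by simp, by simp⟩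

lemma SitB1.hasK {G : SimpleGraph V} {I : Set V} {c : Fin 5 → V} {x : V} (h : SitB1 G I c x) :
    HasK G 5 := by
  by_cases hno : ∀ i, ¬ (del G I).Adj x (c i)
  · exact h.case0 hno
  · push Not at hno
    obtain ⟨i, hi⟩ := hno
    have h' := h.rot i
    have hi0 : (del G I).Adj x ((fun k => c (k + i)) 0) := by simpa using hi
    generalize (fun k => c (k + i)) = d at h' hi0
    have e01 := h'.adj 0
    have e12 := h'.adj 1
    have e23 := h'.adj 2
    have e34 := h'.adj 3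
    have e40 := h'.adj 4
    simp only [Fin.isValue, Fin.reduceAdd] at e01 e12 e23 e34 e40
    have hx1 : ¬ (del G I).Adj x (d 1) := fun h1 => h'.tf _ _ _ hi0.1 e01 h1.1
    have hx4 : ¬ (del G I).Adj x (d 4) := fun h1 => h'.tf _ _ _ h1.1 e40 hi0.1
    by_cases h2 : (del G I).Adj x (d 2)
    · exact (h'.rot 1).case2 (by simpa using h2) (by simpa using hi0)
    · by_cases h3 : (del G I).Adj x (d 3)
      · exact (h'.rot 4).case2 (by simpa using hi0) (by simpa using h3)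
      · refine h'.case1 hi0 ?_
        intro j hj
        fin_cases j
        · exact absurd rfl hj
        · exact hx1
        · exact h2
        · exact h3
        · exact hx4

end B1b

section B2

/-- The situation of case B2. -/
structure SitB2 (G : SimpleGraph V) (I : Set V) (c : Fin 5 → V) (p q : V) : Prop where
  tf : ∀ a b d, G.Adj a b → G.Adj b d → ¬ G.Adj a d
  ind : ∀ u ∈ I, ∀ v ∈ I, ¬ G.Adj u v
  dom : ∀ v, v ∉ I → ∃ w ∈ I, G.Adj v w
  no3 : ¬ G.Colorable 3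
  cI : ∀ i, c i ∉ I
  adj : ∀ i, G.Adj (c i) (c (i + 1))
  inj : Function.Injective c
  hp : p ∉ Set.range c
  hq : q ∉ Set.range c
  pq : (del G I).Adj p q
  str : ∀ u v, (del G I).Adj u v → u ∉ Set.range c → (u = p ∧ v = q) ∨ (u = q ∧ v = p)

lemma SitB2.rot {G : SimpleGraph V} {I : Set V} {c : Fin 5 → V} {p q : V} (h : SitB2 G I c p q)
    (k : Fin 5) : SitB2 G I (fun i => c (i + k)) p q := by
  have hr : Set.range (fun i => c (i + k)) = Set.range c :=
    (Equiv.addRight k).surjective.range_comp c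
  refine ⟨h.tf, h.ind, h.dom, h.no3, fun i => h.cI _, ?_, ?_, ?_, ?_, h.pq, ?_⟩
  · intro i
    have := h.adj (i + k)
    rwa [add_right_comm] at this
  · intro a b hab
    exact add_right_cancel (h.inj hab)
  · rw [hr]; exact h.hp
  · rw [hr]; exact h.hq
  · rw [hr]; exact h.str

lemma SitB2.refl {G : SimpleGraph V} {I : Set V} {c : Fin 5 → V} {p q : V}
    (h : SitB2 G I c p q) : SitB2 G I (fun i => c (-i)) p q := by
  have hr : Set.range (fun i => c (-i)) = Set.range c :=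
    (Equiv.neg (Fin 5)).surjective.range_comp c
  refine ⟨h.tf, h.ind, h.dom, h.no3, fun i => h.cI _, ?_, ?_, ?_, ?_, h.pq, ?_⟩
  · intro i
    have h1 := h.adj (-(i + 1))
    have h2 : -(i + 1) + 1 = -i := by
      rw [neg_add, neg_add_cancel_right]
    rw [h2] at h1
    exact h1.symm
  · intro a b hab
    exact neg_injective (h.inj hab)
  · rw [hr]; exact h.hp
  · rw [hr]; exact h.hq
  · rw [hr]; exact h.str

lemma SitB2.swap {G : SimpleGraph V} {I : Set V} {c : Fin 5 → V} {p q : V}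
    (h : SitB2 G I c p q) : SitB2 G I c q p :=
  ⟨h.tf, h.ind, h.dom, h.no3, h.cI, h.adj, h.inj, h.hq, h.hp, h.pq.symm,
    fun u v huv hu => (h.str u v huv hu).symm⟩

/-- `c i` has two neighbours in `I`. -/
def Big {n : ℕ} (G : SimpleGraph V) (I : Set V) (c : Fin n → V) (i : Fin n) : Prop :=
  ∃ y ∈ I, ∃ z ∈ I, y ≠ z ∧ G.Adj y (c i) ∧ G.Adj z (c i)

lemma not_big {n : ℕ} {G : SimpleGraph V} {I : Set V} {c : Fin n → V} {i : Fin n}
    (hdom : ∀ v, v ∉ I → ∃ w ∈ I, G.Adj v w) (hc : c i ∉ I)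
    (h : ¬ Big G I c i) : ∃ y ∈ I, ∀ t ∈ I, G.Adj t (c i) → t = y := by
  obtain ⟨y, hy, hcy⟩ := hdom (c i) hc
  refine ⟨y, hy, fun t ht htc => ?_⟩
  by_contra hne
  exact h ⟨t, ht, y, hy, hne, htc, hcy.symm⟩

lemma SitB2.common0 {G : SimpleGraph V} {I : Set V} {c : Fin 5 → V} {p q : V}
    (h : SitB2 G I c p q) (hb : ¬ Big G I c 0) : ∃ t ∈ I, G.Adj t (c 2) ∧ G.Adj t q := by
  classical
  by_contra hcon
  push Not at hcon
  apply h.no3
  obtain ⟨y0, hy0, huniq⟩ := not_big h.dom (h.cI 0) hb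
  set col : V → Fin 3 := fun v => if v ∈ I then (if G.Adj v (c 2) then 1 else 0) else
    if v = c 2 then 0 else if v = c 3 ∨ v = q then 1 else
      if v = c 0 then (if G.Adj y0 (c 2) then 0 else 1) else 2 with hcol
  have hcI := h.cI
  have hqc : ∀ i, c i ≠ q := fun i e => h.hq ⟨i, e⟩
  have hc0 : col (c 0) ≠ 2 := by
    simp only [hcol, hcI, h.inj.eq_iff, hqc]
    simp only [if_false, Fin.isValue, Fin.reduceEq, or_self, if_true]
    split_ifs <;> decide
  have hc0' : ∀ u ∈ I, G.Adj u (c 0) → col u ≠ col (c 0) := by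
    intro u hu huc
    rw [huniq u hu huc]
    simp only [hcol, hcI, hy0, h.inj.eq_iff, hqc]
    simp only [if_false, Fin.isValue, Fin.reduceEq, or_self, if_true]
    split_ifs <;> decide
  have hc1 : col (c 1) = 2 := by simp [hcol, hcI, h.inj.eq_iff, hqc]
  have hc2 : col (c 2) = 0 := by simp [hcol, hcI]
  have hc3 : col (c 3) = 1 := by simp [hcol, hcI, h.inj.eq_iff]
  have hc4 : col (c 4) = 2 := by simp [hcol, hcI, h.inj.eq_iff, hqc]
  have hqI : q ∉ I := h.pq.2.2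
  have hpI : p ∉ I := h.pq.2.1
  have hcq : col q = 1 := by simp [hcol, hqI, (hqc _).symm]
  have hpc : ∀ i, p ≠ c i := fun i e => h.hp ⟨i, e.symm⟩
  have hcp : col p = 2 := by simp [hcol, hpI, hpc, h.pq.ne]
  have hII : ∀ v ∈ I, col v ≠ 2 := by
    intro v hv
    simp only [hcol, hv, if_true]
    split_ifs <;> decide
  refine colorable_check G I c h.ind ?_ col ?_ ?_ ?_
  · intro i j hij
    exact chord5 h.tf h.adj i j hij.1
  · intro u hu v hv huv
    by_cases hv2 : v = c 2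
    · subst hv2
      rw [hc2]
      simp [hcol, hu, huv]
    · by_cases hv3 : v = c 3
      · subst hv3
        rw [hc3]
        have : ¬ G.Adj u (c 2) := fun h' => h.tf _ _ _ h' (h.adj 2) huv
        simp [hcol, hu, this]
      · by_cases hv0 : v = c 0
        · subst hv0
          exact hc0' u hu huv
        · by_cases hvq : v = q
          · subst hvq
            rw [hcq]
            have : ¬ G.Adj u (c 2) := fun h' => hcon u hu h' huv
            simp [hcol, hu, this]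
          · have : col v = 2 := by simp [hcol, hv, hv2, hv3, hv0, hvq]
            rw [this]
            exact hII u hu
  · intro u v huv hur
    rcases h.str u v huv hur with ⟨rfl, rfl⟩ | ⟨rfl, rfl⟩
    · rw [hcp, hcq]; decide
    · rw [hcp, hcq]; decide
  · intro i
    fin_cases i
    · exact fun h' => absurd (h'.trans hc1) hc0
    · exact fun h' => absurd (hc1.symm.trans (h'.trans hc2)) (by decide)
    · exact fun h' => absurd (hc2.symm.trans (h'.trans hc3)) (by decide)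
    · exact fun h' => absurd (hc3.symm.trans (h'.trans hc4)) (by decide)
    · exact fun h' => absurd (h'.symm.trans hc4) hc0

lemma SitB2.big2 {G : SimpleGraph V} {I : Set V} {c : Fin 5 → V} {p q : V}
    (h : SitB2 G I c p q) (hb : ¬ Big G I c 0) : Big G I c 2 := by
  obtain ⟨t, ht, h1, h2⟩ := h.common0 hb
  obtain ⟨s, hs, h3, h4⟩ := h.swap.common0 hb
  refine ⟨t, ht, s, hs, ?_, h1, h3⟩
  rintro rfl
  exact h.tf _ _ _ h4 h.pq.1 h2

lemma SitB2.big3 {G : SimpleGraph V} {I : Set V} {c : Fin 5 → V} {p q : V}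
    (h : SitB2 G I c p q) (hb : ¬ Big G I c 0) : Big G I c 3 :=
  h.refl.big2 hb

lemma SitB2.fin23 {G : SimpleGraph V} {I : Set V} {c : Fin 5 → V} {p q : V}
    (h : SitB2 G I c p q) (h2 : Big G I c 2) (h3 : Big G I c 3) : HasK G 5 := by
  obtain ⟨y1, hy1, y2, hy2, n12, a1, a2⟩ := h2
  obtain ⟨y3, hy3, y4, hy4, n34, a3, a4⟩ := h3
  have e01 := h.adj 0
  have e12 := h.adj 1
  have e23 := h.adj 2
  have e34 := h.adj 3
  have e40 := h.adj 4
  simp only [Fin.isValue, Fin.reduceAdd] at e01 e12 e23 e34 e40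
  have hI : ∀ t ∈ I, ∀ i, t ≠ c i := fun t ht i e => h.cI i (e ▸ ht)
  have hIp : ∀ t ∈ I, t ≠ p := fun t ht e => h.pq.2.1 (e ▸ ht)
  have hIq : ∀ t ∈ I, t ≠ q := fun t ht e => h.pq.2.2 (e ▸ ht)
  have hpc : ∀ i, p ≠ c i := fun i e => h.hp ⟨i, e.symm⟩
  have hqc : ∀ i, q ≠ c i := fun i e => h.hq ⟨i, e.symm⟩
  have key : ∀ s t, G.Adj s (c 2) → G.Adj t (c 3) → s ≠ t :=
    fun s t hs ht e => h.tf _ _ _ hs e23 (e ▸ ht)
  refine hasK5_of_list G [(y1, 0), (y2, 4), (y3, 1), (y4, 0), (p, 4), (q, 1), (c 0, 0), (c 1, 1),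
    (c 2, 2), (c 3, 3), (c 4, 4)] ?_ ?_ ?_ ?_ ?_ ?_ ?_ ?_ ?_ ?_ ?_
  · simp [h.inj.eq_iff, hI y1 hy1, hI y2 hy2, hI y3 hy3, hI y4 hy4, hIp y1 hy1, hIp y2 hy2,
      hIp y3 hy3, hIp y4 hy4, hIq y1 hy1, hIq y2 hy2, hIq y3 hy3, hIq y4 hy4, n12, n34,
      key y1 y3 a1 a3, key y1 y4 a1 a4, key y2 y3 a2 a3, key y2 y4 a2 a4, hpc, hqc, h.pq.ne]
  · exact ⟨c 0, c 1, e01, by simp, by simp⟩
  · exact ⟨y1, c 2, a1, by simp, by simp⟩
  · exact ⟨y4, c 3, a4, by simp, by simp⟩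
  · exact ⟨c 0, c 4, e40.symm, by simp, by simp⟩
  · exact ⟨c 1, c 2, e12, by simp, by simp⟩
  · exact ⟨y3, c 3, a3, by simp, by simp⟩
  · exact ⟨q, p, h.pq.1.symm, by simp, by simp⟩
  · exact ⟨c 2, c 3, e23, by simp, by simp⟩
  · exact ⟨c 2, y2, a2.symm, by simp, by simp⟩
  · exact ⟨c 3, c 4, e34, by simp, by simp⟩

lemma SitB2.hasK {G : SimpleGraph V} {I : Set V} {c : Fin 5 → V} {p q : V}
    (h : SitB2 G I c p q) : HasK G 5 := by
  by_cases h0 : Big G I c 0
  · by_cases h1 : Big G I c 1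
    · exact (h.rot 3).fin23 (by simpa [Big] using h0) (by simpa [Big] using h1)
    · have h1' : ¬ Big G I (fun i => c (i + 1)) 0 := by simpa [Big] using h1
      exact (h.rot 1).fin23 ((h.rot 1).big2 h1') ((h.rot 1).big3 h1')
  · exact h.fin23 (h.big2 h0) (h.big3 h0)

end B2

section C7

/-- The situation of case C7. -/
structure SitC7 (G : SimpleGraph V) (I : Set V) (c : Fin 7 → V) : Prop where
  tf : ∀ a b d, G.Adj a b → G.Adj b d → ¬ G.Adj a d
  ind : ∀ u ∈ I, ∀ v ∈ I, ¬ G.Adj u v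
  dom : ∀ v, v ∉ I → ∃ w ∈ I, G.Adj v w
  no3 : ¬ G.Colorable 3
  cI : ∀ i, c i ∉ I
  adj : ∀ i, G.Adj (c i) (c (i + 1))
  inj : Function.Injective c
  chord : ∀ i j, (del G I).Adj (c i) (c j) → j = i + 1 ∨ i = j + 1
  str : ∀ u v, (del G I).Adj u v → u ∈ Set.range c

lemma SitC7.rot {G : SimpleGraph V} {I : Set V} {c : Fin 7 → V} (h : SitC7 G I c)
    (k : Fin 7) : SitC7 G I (fun i => c (i + k)) := by
  have hr : Set.range (fun i => c (i + k)) = Set.range c :=
    (Equiv.addRight k).surjective.range_comp c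
  refine ⟨h.tf, h.ind, h.dom, h.no3, fun i => h.cI _, ?_, ?_, ?_, ?_⟩
  · intro i
    have := h.adj (i + k)
    rwa [add_right_comm] at this
  · intro a b hab
    exact add_right_cancel (h.inj hab)
  · intro i j hij
    rcases h.chord _ _ hij with h' | h'
    · left
      rw [add_right_comm] at h'
      exact add_right_cancel h'
    · right
      rw [add_right_comm] at h'
      exact add_right_cancel h'
  · rw [hr]; exact h.str

lemma SitC7.big13 {G : SimpleGraph V} {I : Set V} {c : Fin 7 → V} (h : SitC7 G I c) :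
    Big G I c 1 ∨ Big G I c 3 := by
  classical
  by_contra hcon
  push Not at hcon
  apply h.no3
  obtain ⟨y1, hy1, huniq1⟩ := not_big h.dom (h.cI 1) hcon.1
  obtain ⟨y3, hy3, huniq3⟩ := not_big h.dom (h.cI 3) hcon.2
  set col : V → Fin 3 := fun v => if v ∈ I then (if G.Adj v (c 5) then 1 else 0) else
    if v = c 5 then 0 else if v = c 6 then 1 else
      if v = c 1 then (if G.Adj y1 (c 5) then 0 else 1) else
        if v = c 3 then (if G.Adj y3 (c 5) then 0 else 1) else 2 with hcol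
  have hcI := h.cI
  have hc1 : col (c 1) ≠ 2 := by
    simp only [hcol, hcI, h.inj.eq_iff]
    simp only [if_false, Fin.isValue, Fin.reduceEq, if_true]
    split_ifs <;> decide
  have hc3 : col (c 3) ≠ 2 := by
    simp only [hcol, hcI, h.inj.eq_iff]
    simp only [if_false, Fin.isValue, Fin.reduceEq, if_true]
    split_ifs <;> decide
  have hc1' : ∀ u ∈ I, G.Adj u (c 1) → col u ≠ col (c 1) := by
    intro u hu huc
    rw [huniq1 u hu huc]
    simp only [hcol, hcI, hy1, h.inj.eq_iff]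
    simp only [if_false, Fin.isValue, Fin.reduceEq, if_true]
    split_ifs <;> decide
  have hc3' : ∀ u ∈ I, G.Adj u (c 3) → col u ≠ col (c 3) := by
    intro u hu huc
    rw [huniq3 u hu huc]
    simp only [hcol, hcI, hy3, h.inj.eq_iff]
    simp only [if_false, Fin.isValue, Fin.reduceEq, if_true]
    split_ifs <;> decide
  have hc0 : col (c 0) = 2 := by simp [hcol, hcI, h.inj.eq_iff]
  have hc2 : col (c 2) = 2 := by simp [hcol, hcI, h.inj.eq_iff]
  have hc4 : col (c 4) = 2 := by simp [hcol, hcI, h.inj.eq_iff]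
  have hc5 : col (c 5) = 0 := by simp [hcol, hcI]
  have hc6 : col (c 6) = 1 := by simp [hcol, hcI, h.inj.eq_iff]
  have hII : ∀ v ∈ I, col v ≠ 2 := by
    intro v hv
    simp only [hcol, hv, if_true]
    split_ifs <;> decide
  refine colorable_check G I c h.ind h.chord col ?_ ?_ ?_
  · intro u hu v hv huv
    by_cases hv5 : v = c 5
    · subst hv5
      rw [hc5]
      simp [hcol, hu, huv]
    · by_cases hv6 : v = c 6
      · subst hv6
        rw [hc6]
        have : ¬ G.Adj u (c 5) := fun h' => h.tf _ _ _ h' (h.adj 5) huv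
        simp [hcol, hu, this]
      · by_cases hv1 : v = c 1
        · subst hv1
          exact hc1' u hu huv
        · by_cases hv3 : v = c 3
          · subst hv3
            exact hc3' u hu huv
          · have : col v = 2 := by simp [hcol, hv, hv5, hv6, hv1, hv3]
            rw [this]
            exact hII u hu
  · intro u v huv hur
    exact absurd (h.str u v huv) hur
  · intro i
    fin_cases i
    · exact fun h' => absurd (h'.symm.trans hc0) hc1
    · exact fun h' => absurd (h'.trans hc2) hc1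
    · exact fun h' => absurd (h'.symm.trans hc2) hc3
    · exact fun h' => absurd (h'.trans hc4) hc3
    · exact fun h' => absurd (hc4.symm.trans (h'.trans hc5)) (by decide)
    · exact fun h' => absurd (hc5.symm.trans (h'.trans hc6)) (by decide)
    · exact fun h' => absurd (hc6.symm.trans (h'.trans hc0)) (by decide)

lemma SitC7.fin13 {G : SimpleGraph V} {I : Set V} {c : Fin 7 → V} (h : SitC7 G I c)
    (h1 : Big G I c 1) (h3 : Big G I c 3) : HasK G 5 := by
  have e01 := h.adj 0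
  have e12 := h.adj 1
  have e23 := h.adj 2
  have e34 := h.adj 3
  have e45 := h.adj 4
  have e56 := h.adj 5
  have e60 := h.adj 6
  simp only [Fin.isValue, Fin.reduceAdd] at e01 e12 e23 e34 e45 e56 e60
  have hI : ∀ t ∈ I, ∀ i, t ≠ c i := fun t ht i e => h.cI i (e ▸ ht)
  obtain ⟨a, ha, b, hb, nab, aa, ab⟩ := h1
  obtain ⟨u, hu, v, hv, nuv, au, av⟩ := h3
  by_cases hA : ∃ w ∈ I, G.Adj w (c 1) ∧ ¬ G.Adj w (c 3)
  · obtain ⟨w, hw, w1, w3⟩ := hA
    have nwu : w ≠ u := fun e => w3 (e ▸ au)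
    have nwv : w ≠ v := fun e => w3 (e ▸ av)
    refine hasK5_of_list G [(w, 4), (u, 4), (v, 2), (c 0, 0), (c 1, 2), (c 2, 1), (c 3, 3),
      (c 4, 0), (c 5, 4), (c 6, 1)] ?_ ?_ ?_ ?_ ?_ ?_ ?_ ?_ ?_ ?_ ?_
    · simp [h.inj.eq_iff, hI w hw, hI u hu, hI v hv, nwu, nwv, nuv]
    · exact ⟨c 0, c 6, e60.symm, by simp, by simp⟩
    · exact ⟨c 0, c 1, e01, by simp, by simp⟩
    · exact ⟨c 4, c 3, e34.symm, by simp, by simp⟩
    · exact ⟨c 4, c 5, e45, by simp, by simp⟩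
    · exact ⟨c 2, c 1, e12.symm, by simp, by simp⟩
    · exact ⟨c 2, c 3, e23, by simp, by simp⟩
    · exact ⟨c 6, c 5, e56.symm, by simp, by simp⟩
    · exact ⟨v, c 3, av, by simp, by simp⟩
    · exact ⟨c 1, w, w1.symm, by simp, by simp⟩
    · exact ⟨c 3, u, au.symm, by simp, by simp⟩
  · by_cases hB : ∃ w ∈ I, G.Adj w (c 3) ∧ ¬ G.Adj w (c 1)
    · obtain ⟨w, hw, w3, w1⟩ := hB
      have nwa : w ≠ a := fun e => w1 (e ▸ aa)
      have nwb : w ≠ b := fun e => w1 (e ▸ ab)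
      refine hasK5_of_list G [(w, 4), (a, 3), (b, 4), (c 0, 0), (c 1, 2), (c 2, 1), (c 3, 3),
        (c 4, 0), (c 5, 4), (c 6, 1)] ?_ ?_ ?_ ?_ ?_ ?_ ?_ ?_ ?_ ?_ ?_
      · simp [h.inj.eq_iff, hI w hw, hI a ha, hI b hb, nwa, nwb, nab]
      · exact ⟨c 0, c 6, e60.symm, by simp, by simp⟩
      · exact ⟨c 0, c 1, e01, by simp, by simp⟩
      · exact ⟨c 4, c 3, e34.symm, by simp, by simp⟩
      · exact ⟨c 4, c 5, e45, by simp, by simp⟩
      · exact ⟨c 2, c 1, e12.symm, by simp, by simp⟩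
      · exact ⟨c 2, c 3, e23, by simp, by simp⟩
      · exact ⟨c 6, c 5, e56.symm, by simp, by simp⟩
      · exact ⟨c 1, a, aa.symm, by simp, by simp⟩
      · exact ⟨c 1, b, ab.symm, by simp, by simp⟩
      · exact ⟨c 3, w, w3.symm, by simp, by simp⟩
    · push Not at hA
      obtain ⟨s, hs, hcs⟩ := h.dom (c 4) (h.cI 4)
      have nas : a ≠ s := fun e => h.tf _ _ _ (hA a ha aa) e34 (e ▸ hcs.symm)
      have nbs : b ≠ s := fun e => h.tf _ _ _ (hA b hb ab) e34 (e ▸ hcs.symm)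
      refine hasK5_of_list G [(s, 3), (a, 2), (b, 3), (c 0, 0), (c 1, 4), (c 2, 1), (c 3, 0),
        (c 4, 2), (c 5, 1), (c 6, 3)] ?_ ?_ ?_ ?_ ?_ ?_ ?_ ?_ ?_ ?_ ?_
      · simp [h.inj.eq_iff, hI s hs, hI a ha, hI b hb, nas.symm, nbs.symm, nab]
      · exact ⟨c 3, c 2, e23.symm, by simp, by simp⟩
      · exact ⟨c 3, c 4, e34, by simp, by simp⟩
      · exact ⟨c 0, c 6, e60.symm, by simp, by simp⟩
      · exact ⟨c 0, c 1, e01, by simp, by simp⟩
      · exact ⟨c 5, c 4, e45.symm, by simp, by simp⟩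
      · exact ⟨c 5, c 6, e56, by simp, by simp⟩
      · exact ⟨c 2, c 1, e12.symm, by simp, by simp⟩
      · exact ⟨c 4, s, hcs, by simp, by simp⟩
      · exact ⟨a, c 1, aa, by simp, by simp⟩
      · exact ⟨b, c 1, ab, by simp, by simp⟩

lemma SitC7.hasK {G : SimpleGraph V} {I : Set V} {c : Fin 7 → V} (h : SitC7 G I c) :
    HasK G 5 := by
  have h' : ∀ k : Fin 7, Big G I c (1 + k) ∨ Big G I c (3 + k) := by
    intro k
    have := (h.rot k).big13
    simpa [Big] using this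
  by_contra hcon
  have h'' : ∀ k : Fin 7, ¬ (Big G I c (1 + k) ∧ Big G I c (3 + k)) := by
    rintro k ⟨h1, h3⟩
    exact hcon ((h.rot k).fin13 (by simpa [Big] using h1) (by simpa [Big] using h3))
  have a0 := h' 0
  have a1 := h' 1
  have a2 := h' 2
  have a3 := h' 3
  have a4 := h' 4
  have a5 := h' 5
  have a6 := h' 6
  have b0 := h'' 0
  have b1 := h'' 1
  have b2 := h'' 2
  have b3 := h'' 3
  have b4 := h'' 4
  have b5 := h'' 5
  have b6 := h'' 6
  simp only [Fin.isValue, Fin.reduceAdd] at a0 a1 a2 a3 a4 a5 a6 b0 b1 b2 b3 b4 b5 b6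
  clear h' h'' hcon
  by_cases h1 : Big G I c 1
  · have n3 : ¬ Big G I c 3 := fun h3 => b0 ⟨h1, h3⟩
    have p5 : Big G I c 5 := a2.resolve_left n3
    have n0 : ¬ Big G I c 0 := fun h0 => b4 ⟨p5, h0⟩
    have p2 : Big G I c 2 := a6.resolve_left n0
    have n4 : ¬ Big G I c 4 := fun h4 => b1 ⟨p2, h4⟩
    have p6 : Big G I c 6 := a3.resolve_left n4
    exact b5 ⟨p6, h1⟩
  · have p3 : Big G I c 3 := a0.resolve_left h1
    have n5 : ¬ Big G I c 5 := fun h5 => b2 ⟨p3, h5⟩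
    have p0 : Big G I c 0 := a4.resolve_left n5
    have n2 : ¬ Big G I c 2 := fun h2 => b6 ⟨p0, h2⟩
    have p4 : Big G I c 4 := a1.resolve_left n2
    have n6 : ¬ Big G I c 6 := fun h6 => b3 ⟨p4, h6⟩
    exact (a5.resolve_left n6 |> h1)

end C7

/-- Every finite triangle-free graph that is not 3-colourable has a complete (not necessarily
proper) labelling with five labels. -/
theorem hasK5_of_not_colorable [Finite V] (G : SimpleGraph V)
    (tf : ∀ a b d, G.Adj a b → G.Adj b d → ¬ G.Adj a d) (h3 : ¬ G.Colorable 3) : HasK G 5 := by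
  classical
  -- a maximal independent set
  obtain ⟨I, hI⟩ : ∃ I : Set V, Maximal (fun S : Set V => ∀ u ∈ S, ∀ v ∈ S, ¬ G.Adj u v) I := by
    obtain ⟨I, -, hI⟩ := (Set.toFinite {S : Set V | ∀ u ∈ S, ∀ v ∈ S, ¬ G.Adj u v}).exists_le_maximal
      (a := ∅) (by simp)
    exact ⟨I, hI⟩
  have hind : ∀ u ∈ I, ∀ v ∈ I, ¬ G.Adj u v := hI.prop
  have hdom : ∀ v, v ∉ I → ∃ w ∈ I, G.Adj v w := by
    intro v hv
    by_contra hcon
    push Not at hcon
    have h1 : ∀ u ∈ insert v I, ∀ w ∈ insert v I, ¬ G.Adj u w := by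
      intro u hu w hw huw
      rcases hu with rfl | hu <;> rcases hw with rfl | hw
      · exact G.loopless.irrefl _ huw
      · exact hcon w hw huw
      · exact hcon u hu huw.symm
      · exact hind u hu w hw huw
    exact hv (hI.le_of_ge h1 (Set.subset_insert v I) (Set.mem_insert v I))
  by_contra h5
  have hH2 : ¬ (del G I).Colorable 2 := fun h => h3 (colorable_succ G I hind h)
  have hH4 : ¬ HasK (del G I) 4 := fun h => h5 (hasK_succ G I hdom (by norm_num) h)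
  obtain ⟨l, c, hl5, hodd, hcl, hadj, hinj, hchord⟩ := exists_min (del G I) hH2
    (fun a b d h1 h2 h3 => tf a b d h1.1 h2.1 h3.1)
  have hl : l = 5 ∨ l = 7 := by
    by_contra hcon
    push Not at hcon
    have hl9 : 9 ≤ l := by
      rw [Nat.odd_iff] at hodd
      omega
    exact hH4 (path8 (del G I) c (fun i hi => hadj i (by omega))
      (fun i j hij hj => hinj i j hij (by omega)))
  rcases hl with rfl | rfl
  · -- five-cycle
    let d : Fin 5 → V := fun i => c i.val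
    have hdadj : ∀ i, (del G I).Adj (d i) (d (i + 1)) := by
      intro i
      fin_cases i
      · exact hadj 0 (by norm_num)
      · exact hadj 1 (by norm_num)
      · exact hadj 2 (by norm_num)
      · exact hadj 3 (by norm_num)
      · have := hadj 4 (by norm_num)
        rw [show 4 + 1 = 5 from rfl, hcl] at this
        exact this
    have hdinj : Function.Injective d := by
      intro a b hab
      rcases lt_trichotomy a b with h | h | h
      · exact absurd hab (hinj a.val b.val h b.isLt)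
      · exact h
      · exact absurd hab.symm (hinj b.val a.val h a.isLt)
    have hout : ∃ v, ∀ i, v ≠ d i := by
      obtain ⟨w, hw, -⟩ := hdom (d 0) (hdadj 0).2.1
      exact ⟨w, fun i e => (hdadj i).2.1 (e ▸ hw)⟩
    rcases cyc5_struct (del G I) d hdadj hdinj hH4 hout with ⟨x, hx, hstr⟩ | ⟨p, q, hp, hq, hpq, hstr⟩
    · have S : SitB1 G I d x := by
        refine ⟨tf, hind, hdom, h3, fun i => (hdadj i).2.1, fun i => (hdadj i).1, hdinj, ?_, ?_⟩
        · rintro ⟨i, hi⟩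
          exact hx i hi.symm
        · intro u v huv hu
          obtain ⟨h1, i, hi⟩ := hstr u v huv (fun i hi => hu ⟨i, hi.symm⟩)
          exact ⟨h1, i, hi.symm⟩
      exact h5 S.hasK
    · have S : SitB2 G I d p q := by
        refine ⟨tf, hind, hdom, h3, fun i => (hdadj i).2.1, fun i => (hdadj i).1, hdinj, ?_, ?_,
          hpq, ?_⟩
        · rintro ⟨i, hi⟩
          exact hp i hi.symm
        · rintro ⟨i, hi⟩
          exact hq i hi.symm
        · intro u v huv hu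
          exact hstr u v huv (fun i hi => hu ⟨i, hi.symm⟩)
      exact h5 S.hasK
  · -- seven-cycle
    let d : Fin 7 → V := fun i => c i.val
    have hdadj : ∀ i, (del G I).Adj (d i) (d (i + 1)) := by
      intro i
      fin_cases i
      · exact hadj 0 (by norm_num)
      · exact hadj 1 (by norm_num)
      · exact hadj 2 (by norm_num)
      · exact hadj 3 (by norm_num)
      · exact hadj 4 (by norm_num)
      · exact hadj 5 (by norm_num)
      · have := hadj 6 (by norm_num)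
        rw [show 6 + 1 = 7 from rfl, hcl] at this
        exact this
    have hdinj : Function.Injective d := by
      intro a b hab
      rcases lt_trichotomy a b with h | h | h
      · exact absurd hab (hinj a.val b.val h b.isLt)
      · exact h
      · exact absurd hab.symm (hinj b.val a.val h a.isLt)
    have hdchord : ∀ i j, (del G I).Adj (d i) (d j) → j = i + 1 ∨ i = j + 1 := by
      have key : ∀ i j : Fin 7, i < j → (del G I).Adj (d i) (d j) → j = i + 1 ∨ i = j + 1 := by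
        intro i j hij hadj'
        have h1 := hchord i.val j.val hij j.isLt hadj'
        have h2 : ∀ i j : Fin 7, (j.val = i.val + 1 ∨ (i.val = 0 ∧ j.val + 1 = 7)) →
            j = i + 1 ∨ i = j + 1 := by decide
        exact h2 i j h1
      intro i j hij
      rcases lt_trichotomy i j with h | h | h
      · exact key i j h hij
      · subst h
        exact absurd hij ((del G I).loopless.irrefl _)
      · exact (key j i h hij.symm).symm
    have S : SitC7 G I d := by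
      refine ⟨tf, hind, hdom, h3, fun i => (hdadj i).2.1, fun i => (hdadj i).1, hdinj,
        hdchord, ?_⟩
      intro u v huv
      obtain ⟨i, hi⟩ := cyc7_outside (del G I) hH4 d hdadj hdinj u v huv
      exact ⟨i, hi.symm⟩
    exact h5 S.hasK

end Pool.Agent.H28.Psi
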